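import Mathlib
import Pool.Agent.Lib.MP_135d84_al.BA.All

/-!
Biautomaticity of two-dimensional Artin groups whose defining graph has hyperbolic triangles
`(2, m, n)` and arbitrary triangles with labels at least 3, for graphs without 4-cycles and, more
generally, for graphs with a good orientation.
-/

set_option autoImplicit false

namespace Pool.Agent.Results.MP_135d84_al.HyperbolicTwoTriangles

/-- The alternating product `s t s ⋯` with `n` factors. -/
def altWord {G : Type*} [Group G] (s t : G) : ℕ → G
  | 0 => 1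
  | n + 1 => s * altWord t s n

/-- The Artin group of a finite labelled graph. The graph is given by its Coxeter matrix `M`: the
vertices `s ≠ t` are adjacent iff `2 ≤ M s t`, and `M s t` is the label; `M s t = 0` means no edge. -/
abbrev ArtinGroup {V : Type} (M : CoxeterMatrix V) : Type :=
  PresentedGroup {r : FreeGroup V | ∃ s t : V,
    r = altWord (FreeGroup.of s) (FreeGroup.of t) (M s t) *
      (altWord (FreeGroup.of t) (FreeGroup.of s) (M s t))⁻¹}

/-- The letters: the elements of `X ∪ X⁻¹`. -/
abbrev Letter {G : Type*} [Group G] (X : Finset G) : Type _ := {g : G // g ∈ X ∨ g⁻¹ ∈ X}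

/-- The element represented by a word. -/
def wval {G : Type*} [Group G] {X : Finset G} (w : List (Letter X)) : G := (w.map Subtype.val).prod

/-- `g` and `h` are at distance at most `k` in the Cayley graph with respect to `X`. -/
def Near {G : Type*} [Group G] (X : Finset G) (k : ℕ) (g h : G) : Prop :=
  ∃ u : List (Letter X), u.length ≤ k ∧ g * wval u = h

/-- Biautomatic groups, literally as in the problem file. -/
def Biautomatic (G : Type*) [Group G] : Prop :=
  ∃ (X : Finset G) (L : Language (Letter X)) (k : ℕ),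
    Subgroup.closure (X : Set G) = ⊤ ∧ L.IsRegular ∧ (∀ g : G, ∃ w ∈ L, wval w = g) ∧
    ∀ w ∈ L, ∀ w' ∈ L, ∀ x y : G, (x = 1 ∨ x ∈ X ∨ x⁻¹ ∈ X) → (y = 1 ∨ y ∈ X ∨ y⁻¹ ∈ X) →
      wval w' = x * wval w * y → ∀ t : ℕ, Near X k (x * wval (w.take t)) (wval (w'.take t))

/-- Good orientations of a labelled graph. Every edge with label at least 3 gets exactly one
direction, every edge with label 2 gets both directions (`arr s t` means that there is an arrow from
`s` to `t`), such that: triangles with labels at least 3 are cyclically oriented; in a triangle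
`a, b, c` with `M a c = 2` the arrows go from `a` and `c` to `b`, and `1/2 + 1/m + 1/n < 1` for the
other two labels `m`, `n`; there are no two vertices `a ≠ b` with arrows to both of two vertices
`u ≠ v`. -/
structure Good {V : Type} (M : CoxeterMatrix V) (arr : V → V → Prop) : Prop where
  adj : ∀ s t, arr s t → 2 ≤ M s t
  two : ∀ s t, M s t = 2 → arr s t
  tot : ∀ s t, 3 ≤ M s t → arr s t ∨ arr t s
  asym : ∀ s t, 3 ≤ M s t → ¬ (arr s t ∧ arr t s)
  cyc : ∀ a b c, 3 ≤ M a b → 3 ≤ M b c → 3 ≤ M c a → arr a b → arr b c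
  sink : ∀ a b c, M a c = 2 → 2 ≤ M a b → 2 ≤ M c b →
    arr a b ∧ arr c b ∧ (1 / 2 + 1 / (M a b : ℚ) + 1 / (M c b : ℚ) < 1)
  alt : ∀ a b u v, arr a u → arr a v → arr b u → arr b v → a = b ∨ u = v

/-- Let `Γ` be a finite labelled graph, given by its Coxeter matrix `M`. If `Γ` has no 4-cycle and
`1/2 + 1/m + 1/n < 1` for every triangle with labels `2, m, n`, or, more generally, if `Γ` has a good
orientation, then its Artin group is biautomatic. -/
theorem result {V : Type} [Finite V] (M : CoxeterMatrix V)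
    (h : ((∀ a b u v, a ≠ b → u ≠ v → 2 ≤ M a u → 2 ≤ M a v → 2 ≤ M b u → 2 ≤ M b v → False) ∧
        ∀ a b c, M a c = 2 → 2 ≤ M a b → 2 ≤ M c b →
          1 / 2 + 1 / (M a b : ℚ) + 1 / (M c b : ℚ) < 1) ∨
      ∃ arr : V → V → Prop, Good M arr) :
    Biautomatic (ArtinGroup M) := by
  have conv : ∀ m n : ℕ, 2 ≤ m → 2 ≤ n → (1 / 2 + 1 / (m : ℚ) + 1 / (n : ℚ) < 1) →
      2 * (m + n) < m * n := by
    intro m n hm hn h
    have hm' : (0 : ℚ) < m := by exact_mod_cast (by omega : 0 < m)
    have hn' : (0 : ℚ) < n := by exact_mod_cast (by omega : 0 < n)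
    have h2 : (2 * ((m : ℚ) + n)) < m * n := by
      have h3 : (1 / 2 + 1 / (m : ℚ) + 1 / (n : ℚ)) * (2 * (m * n)) < 1 * (2 * (m * n)) :=
        mul_lt_mul_of_pos_right h (by positivity)
      have h4 : (1 / 2 + 1 / (m : ℚ) + 1 / (n : ℚ)) * (2 * (m * n)) = m * n + 2 * n + 2 * m := by
        field_simp
      rw [h4] at h3
      linarith
    exact_mod_cast h2
  have halt : ∀ {G : Type} [Group G] (n : ℕ) (s t : G), altWord s t n = BA.altWord s t n := by
    intro G _ n
    induction n with
    | zero => intro s t; rfl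
    | succ n ih => intro s t; simp only [altWord, BA.altWord, ih]
  have hrel : BA.artinRels M = {r : FreeGroup V | ∃ s t : V,
      r = altWord (FreeGroup.of s) (FreeGroup.of t) (M s t) *
        (altWord (FreeGroup.of t) (FreeGroup.of s) (M s t))⁻¹} := by
    simp only [halt]
    rfl
  suffices h3 : BA.Biautomatic (PresentedGroup (BA.artinRels M)) by
    rw [hrel] at h3
    exact h3
  rcases h with ⟨h1, h2⟩ | ⟨arr, h⟩
  · exact BA.All.c4free_biautomatic M h1 (fun a b c e1 e2 e3 => conv _ _ e2 e3 (h2 a b c e1 e2 e3))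
  · exact BA.All.good_biautomatic M arr ⟨h.adj, h.two, h.tot, h.asym, h.cyc, fun a b c e1 e2 e3 =>
      ⟨(h.sink a b c e1 e2 e3).1, (h.sink a b c e1 e2 e3).2.1,
        conv _ _ e2 e3 (h.sink a b c e1 e2 e3).2.2⟩, h.alt⟩

end Pool.Agent.Results.MP_135d84_al.HyperbolicTwoTriangles
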